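import Mathlib

/-! Shift endomorphisms of a polynomial ring in three variables. -/

set_option autoImplicit false

namespace Pool.Agent.Lib.AN30

open MvPolynomial

/-- polynomials in three variables -/
abbrev B (R : Type) [CommRing R] : Type := MvPolynomial (Fin 3) R

variable {R : Type} [CommRing R]

/-- the endomorphism adding `a, b, c` to the three variables -/
noncomputable def T (a b c : B R) : B R →ₐ[R] B R := aeval ![X 0 + a, X 1 + b, X 2 + c]

@[simp] theorem T_X0 (a b c : B R) : T a b c (X 0) = X 0 + a := by simp [T]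
@[simp] theorem T_X1 (a b c : B R) : T a b c (X 1) = X 1 + b := by simp [T]
@[simp] theorem T_X2 (a b c : B R) : T a b c (X 2) = X 2 + c := by simp [T]
@[simp] theorem T_C (a b c : B R) (r : R) : T a b c (C r) = C r := by simp [T]

theorem ext3 {φ ψ : B R →ₐ[R] B R} (h0 : φ (X 0) = ψ (X 0)) (h1 : φ (X 1) = ψ (X 1))
    (h2 : φ (X 2) = ψ (X 2)) : φ = ψ := by
  refine MvPolynomial.algHom_ext fun i => ?_
  fin_cases i
  exacts [h0, h1, h2]

theorem T_mul (a b c a' b' c' : B R) : T a b c * T a' b' c' =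
    T (a + T a b c a') (b + T a b c b') (c + T a b c c') := by
  apply ext3 <;> simp [AlgHom.mul_apply, add_assoc]

theorem T_zero : T (0 : B R) 0 0 = 1 := by
  apply ext3 <;> simp

theorem T_congr {a b c a' b' c' : B R} (ha : a = a') (hb : b = b') (hc : c = c') :
    T a b c = T a' b' c' := by rw [ha, hb, hc]

theorem eq_on {S : Type} [CommRing S] [Algebra R S] {s : Set (B R)} {g : B R}
    (hg : g ∈ Algebra.adjoin R s) {φ ψ : B R →ₐ[R] S} (h : ∀ x ∈ s, φ x = ψ x) : φ g = ψ g :=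
  (Algebra.adjoin_le (S := AlgHom.equalizer φ ψ) h) hg

theorem fix_on {s : Set (B R)} {g : B R} (hg : g ∈ Algebra.adjoin R s) {φ : B R →ₐ[R] B R}
    (h : ∀ x ∈ s, φ x = x) : φ g = g := eq_on (ψ := AlgHom.id R _) hg h

theorem map_on {s : Set (B R)} {g : B R} (hg : g ∈ Algebra.adjoin R s) {φ : B R →ₐ[R] B R}
    {S : Subalgebra R (B R)} (h : ∀ x ∈ s, φ x ∈ S) : φ g ∈ S :=
  (Algebra.adjoin_le (S := S.comap φ) h) hg

/-- the algebra generated by two elements -/
noncomputable abbrev Ad (x y : B R) : Subalgebra R (B R) := Algebra.adjoin R {x, y}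

theorem Ad.left (x y : B R) : x ∈ Ad x y := Algebra.subset_adjoin (by simp)
theorem Ad.right (x y : B R) : y ∈ Ad x y := Algebra.subset_adjoin (by simp)
theorem C_mem (S : Subalgebra R (B R)) (r : R) : C r ∈ S := S.algebraMap_mem r

theorem Ad.eq {S : Type} [CommRing S] [Algebra R S] {x y g : B R} (hg : g ∈ Ad x y)
    {φ ψ : B R →ₐ[R] S} (hx : φ x = ψ x) (hy : φ y = ψ y) : φ g = ψ g :=
  eq_on hg (by rintro z (rfl | rfl) <;> assumption)

theorem Ad.fix {x y g : B R} (hg : g ∈ Ad x y) {φ : B R →ₐ[R] B R} (hx : φ x = x) (hy : φ y = y) :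
    φ g = g := fix_on hg (by rintro z (rfl | rfl) <;> assumption)

theorem Ad.map {x y g : B R} (hg : g ∈ Ad x y) {φ : B R →ₐ[R] B R} {S : Subalgebra R (B R)}
    (hx : φ x ∈ S) (hy : φ y ∈ S) : φ g ∈ S :=
  map_on hg (by rintro z (rfl | rfl) <;> assumption)

theorem Ad.le {x y g : B R} (hg : g ∈ Ad x y) {S : Subalgebra R (B R)} (hx : x ∈ S) (hy : y ∈ S) :
    g ∈ S := Ad.map (φ := AlgHom.id R _) hg hx hy

theorem Ad.span {x y g : B R} (hg : g ∈ Ad x y) (W : Submodule R (B R))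
    (h : ∀ j i : ℕ, x ^ j * y ^ i ∈ W) : g ∈ W := by
  have h1 : g ∈ (Ad x y).toSubmodule := hg
  rw [Algebra.adjoin_eq_span] at h1
  refine Submodule.span_le.mpr ?_ h1
  intro z hz
  obtain ⟨j, i, rfl⟩ := (Submonoid.mem_closure_pair _ _ _).mp hz
  exact h j i

theorem fixA {p : B R} (hp : p ∈ Ad (X 0) (X 1)) (c : B R) : T 0 0 c p = p :=
  Ad.fix hp (by simp) (by simp)

theorem fixU {g : B R} (hg : g ∈ Ad (X 1) (X 2)) (c : B R) : T c 0 0 g = g :=
  Ad.fix hg (by simp) (by simp)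

theorem fixT {g : B R} (hg : g ∈ Ad (X 0) (X 2)) (c : B R) : T 0 c 0 g = g :=
  Ad.fix hg (by simp) (by simp)

theorem dropA {p : B R} (hp : p ∈ Ad (X 0) (X 1)) (a b c : B R) : T a b c p = T a b 0 p :=
  Ad.eq hp (by simp) (by simp)

/-- conjugation by the shift of the last variable -/
noncomputable def cj (p : B R) (ε : B R →ₐ[R] B R) : B R →ₐ[R] B R := T 0 0 (-p) * ε * T 0 0 p

theorem k_mul {c' : B R} (h : c' ∈ Ad (X 0) (X 1)) (c : B R) :
    T 0 0 c * T 0 0 c' = T 0 0 (c + c') := by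
  rw [T_mul, fixA h]; simp

theorem cj_mul {p : B R} (hp : p ∈ Ad (X 0) (X 1)) (ε ε' : B R →ₐ[R] B R) :
    cj p (ε * ε') = cj p ε * cj p ε' := by
  have h : T 0 0 p * T 0 0 (-p) = (1 : B R →ₐ[R] B R) := by
    rw [k_mul (neg_mem hp), add_neg_cancel, T_zero]
  unfold cj
  calc T 0 0 (-p) * (ε * ε') * T 0 0 p = T 0 0 (-p) * ε * 1 * ε' * T 0 0 p := by
        simp only [mul_assoc, one_mul]
    _ = _ := by rw [← h]; simp only [mul_assoc]

theorem cj_one {p : B R} (hp : p ∈ Ad (X 0) (X 1)) : cj p 1 = 1 := by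
  rw [cj, mul_one, k_mul hp, neg_add_cancel, T_zero]

theorem cj_add {p r : B R} (hp : p ∈ Ad (X 0) (X 1)) (hr : r ∈ Ad (X 0) (X 1))
    (ε : B R →ₐ[R] B R) : cj (p + r) ε = cj p (cj r ε) := by
  unfold cj
  rw [neg_add, ← k_mul (neg_mem hr), add_comm p r, ← k_mul hp]
  simp only [mul_assoc]

theorem cj_T {p : B R} (hp : p ∈ Ad (X 0) (X 1)) (a b : B R) :
    cj p (T a b 0) = T (T 0 0 (-p) a) (T 0 0 (-p) b)
      (T (T 0 0 (-p) a) (T 0 0 (-p) b) 0 p - p) := by
  rw [cj, T_mul, T_mul, dropA hp]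
  simp only [map_zero, add_zero, zero_add]
  exact T_congr rfl rfl (by ring)

theorem k_comm {a b : B R} (ha : a ∈ Ad (X 0) (X 1)) (hb : b ∈ Ad (X 0) (X 1)) (c : B R) :
    T 0 0 (T a b 0 c) * T a b 0 = T a b 0 * T 0 0 c := by
  rw [T_mul, T_mul, fixA ha, fixA hb]; simp

theorem cj_plane {a b a' b' : B R} (ha : a ∈ Ad (X 0) (X 1)) (hb : b ∈ Ad (X 0) (X 1))
    (ha' : a' ∈ Ad (X 0) (X 1)) (hb' : b' ∈ Ad (X 0) (X 1)) (h : T a b 0 * T a' b' 0 = 1)
    (p : B R) (ε : B R →ₐ[R] B R) :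
    cj p (T a b 0 * ε * T a' b' 0) = T a b 0 * cj (T a' b' 0 p) ε * T a' b' 0 := by
  have h1 : T a b 0 (-T a' b' 0 p) = -p := by
    rw [map_neg, ← AlgHom.mul_apply, h, AlgHom.one_apply]
  have h2 := k_comm ha hb (-T a' b' 0 p)
  rw [h1] at h2
  have h3 := k_comm ha' hb' p
  unfold cj
  calc T 0 0 (-p) * (T a b 0 * ε * T a' b' 0) * T 0 0 p
      = (T 0 0 (-p) * T a b 0) * ε * (T a' b' 0 * T 0 0 p) := by simp only [mul_assoc]
    _ = _ := by rw [h2, ← h3]; simp only [mul_assoc]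

theorem plane_mem {a b p : B R} (ha : a ∈ Ad (X 0) (X 1)) (hb : b ∈ Ad (X 0) (X 1))
    (hp : p ∈ Ad (X 0) (X 1)) : T a b 0 p ∈ Ad (X 0) (X 1) :=
  Ad.map hp (by rw [T_X0]; exact add_mem (Ad.left _ _) ha)
    (by rw [T_X1]; exact add_mem (Ad.right _ _) hb)

/-- a shift by multiples of `e` moves a polynomial by a multiple of `e` -/
theorem exists_quot {x y p : B R} (hp : p ∈ Ad x y) (φ : B R →ₐ[R] B R) (e : B R)
    (S : Subalgebra R (B R)) (he : e ∈ S) (hx : x ∈ S) (hy : y ∈ S)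
    (hx' : ∃ w ∈ S, φ x = x + e * w) (hy' : ∃ w ∈ S, φ y = y + e * w) :
    ∃ w ∈ S, φ p = p + e * w := by
  suffices h : p ∈ S ∧ ∃ w ∈ S, φ p = p + e * w from h.2
  induction hp using Algebra.adjoin_induction with
  | mem z hz => rcases hz with rfl | rfl <;> exact ⟨by assumption, by assumption⟩
  | algebraMap r => exact ⟨S.algebraMap_mem r, 0, zero_mem _, by simp⟩
  | add z z' _ _ h h' =>
    obtain ⟨h1, w, hw, h2⟩ := h
    obtain ⟨h1', w', hw', h2'⟩ := h'
    exact ⟨add_mem h1 h1', w + w', add_mem hw hw', by rw [map_add, h2, h2']; ring⟩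
  | mul z z' _ _ h h' =>
    obtain ⟨h1, w, hw, h2⟩ := h
    obtain ⟨h1', w', hw', h2'⟩ := h'
    exact ⟨mul_mem h1 h1', z * w' + w * z' + e * w * w',
      add_mem (add_mem (mul_mem h1 hw') (mul_mem hw h1')) (mul_mem (mul_mem he hw) hw'),
      by rw [map_mul, h2, h2']; ring⟩

/-- coefficients of a polynomial family inside a submodule -/
theorem vand [Algebra ℚ R] {M : Type} [AddCommGroup M] [Module R M] (W : Submodule R M) (n : ℕ)
    (g : ℕ → M) (h : ∀ s : ℚ, ∑ j ∈ Finset.range n, (algebraMap ℚ R s) ^ j • g j ∈ W) :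
    ∀ j < n, g j ∈ W := by
  intro j hj
  let v : Fin n → ℚ := fun i => (i : ℕ)
  have hv : (Matrix.vandermonde v).det ≠ 0 :=
    Matrix.det_vandermonde_ne_zero_iff.mpr fun i i' hi => Fin.ext (by simpa [v] using hi)
  have h1 := Matrix.nonsing_inv_mul _ (isUnit_iff_ne_zero.mpr hv)
  have h2 : g j = ∑ s : Fin n, algebraMap ℚ R ((Matrix.vandermonde v)⁻¹ ⟨j, hj⟩ s) •
      ∑ k ∈ Finset.range n, (algebraMap ℚ R (v s)) ^ k • g k := by
    simp only [Finset.sum_range, Finset.smul_sum, smul_smul]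
    rw [Finset.sum_comm]
    have h3 : ∀ k : Fin n, ∑ s : Fin n, (algebraMap ℚ R ((Matrix.vandermonde v)⁻¹ ⟨j, hj⟩ s) *
        (algebraMap ℚ R (v s)) ^ (k : ℕ)) • g k = (if (⟨j, hj⟩ : Fin n) = k then g k else 0) := by
      intro k
      have h4 := congrFun (congrFun h1 ⟨j, hj⟩) k
      rw [Matrix.mul_apply, Matrix.one_apply] at h4
      simp only [Matrix.vandermonde_apply] at h4
      rw [← Finset.sum_smul]
      simp only [← map_pow, ← map_mul]
      rw [← map_sum, h4]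
      split_ifs <;> simp
    simp only [h3, Finset.sum_ite_eq, Finset.mem_univ, if_true]
  rw [h2]
  exact W.sum_mem fun s _ => W.smul_mem _ (h _)

theorem of_nat_mul [Algebra ℚ R] {S : Type} [CommRing S] [Algebra R S] (W : Submodule R S) {m : ℕ}
    (hm : m ≠ 0) {g : S} (h : g * m ∈ W) : g ∈ W := by
  have h1 := W.smul_mem (algebraMap ℚ R (m : ℚ)⁻¹) h
  have h2 : (algebraMap ℚ R (m : ℚ)⁻¹) * (m : R) = 1 := by
    rw [← map_natCast (algebraMap ℚ R), ← map_mul, inv_mul_cancel₀ (by exact_mod_cast hm), map_one]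
  rwa [mul_comm, ← nsmul_eq_mul, ← Nat.cast_smul_eq_nsmul R, smul_smul, h2, one_smul] at h1

/-- binomial form of `vand` -/
theorem vand_pow [Algebra ℚ R] {S : Type} [CommRing S] [Algebra R S] (W : Submodule R S)
    (e x y : S) (j i : ℕ) (h : ∀ s : ℚ, e * (algebraMap ℚ R s • x + y) ^ (j + i) ∈ W) :
    e * (x ^ j * y ^ i) ∈ W := by
  have h1 := vand W (j + i + 1) (fun l => e * (x ^ l * y ^ (j + i - l)) * ((j + i).choose l : ℕ))
    (fun s => by
      have h2 := h s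
      rw [add_pow, Finset.mul_sum] at h2
      convert h2 using 2 with l
      simp only [smul_pow, smul_mul_assoc, mul_smul_comm, mul_assoc]) j (by omega)
  simp only [Nat.add_sub_cancel_left] at h1
  exact of_nat_mul W (Nat.choose_pos (by omega)).ne' h1

end Pool.Agent.Lib.AN30
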