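import Pool.Agent.Lib.AN30.Basic

/-! Conjugates of elementary maps by a shift of the last variable. -/

set_option autoImplicit false

namespace Pool.Agent.Lib.AN30

open MvPolynomial

variable {R : Type} [CommRing R]

/-- a monoid of endomorphisms containing the elementary maps, those of the last variable
only for multiples of `d` -/
structure Hyp (d : R) (Λ : Submonoid (B R →ₐ[R] B R)) : Prop where
  hu : ∀ g ∈ Ad (X 1 : B R) (X 2), T g 0 0 ∈ Λ
  ht : ∀ g ∈ Ad (X 0 : B R) (X 2), T 0 g 0 ∈ Λ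
  hA : ∀ g ∈ Ad (X 0 : B R) (X 1), T 0 0 (C d * g) ∈ Λ

theorem u_mul {a' : B R} (h : a' ∈ Ad (X 1) (X 2)) (a : B R) :
    T a 0 0 * T a' 0 0 = T (a + a') 0 0 := by
  rw [T_mul, fixU h]; simp

theorem t_mul {b' : B R} (h : b' ∈ Ad (X 0) (X 2)) (b : B R) :
    T 0 b 0 * T 0 b' 0 = T 0 (b + b') 0 := by
  rw [T_mul, fixT h]; simp

theorem cj_zero (ε : B R →ₐ[R] B R) : cj 0 ε = ε := by
  rw [cj, neg_zero, T_zero, one_mul, mul_one]

variable {d : R} {Λ : Submonoid (B R →ₐ[R] B R)}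

theorem Hyp.plane (H : Hyp d Λ) {p a b : B R} (hp : p ∈ Ad (X 0) (X 1)) (ha : a ∈ Ad (X 0) (X 1))
    (hb : b ∈ Ad (X 0) (X 1)) (h : T (C d * a) (C d * b) 0 ∈ Λ) :
    cj p (T (C d * a) (C d * b) 0) ∈ Λ := by
  have ha' : C d * a ∈ Ad (X 0 : B R) (X 1) := mul_mem (C_mem _ _) ha
  have hb' : C d * b ∈ Ad (X 0 : B R) (X 1) := mul_mem (C_mem _ _) hb
  obtain ⟨w, hw, h1⟩ := exists_quot hp (T (C d * a) (C d * b) 0) (C d) (Ad (X 0) (X 1))
    (C_mem _ _) (Ad.left _ _) (Ad.right _ _) ⟨a, ha, by simp⟩ ⟨b, hb, by simp⟩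
  rw [cj_T hp, fixA ha', fixA hb', h1, add_sub_cancel_left]
  have h2 : T (C d * a) (C d * b) (C d * w) = T 0 0 (C d * w) * T (C d * a) (C d * b) 0 := by
    rw [T_mul, fixA ha', fixA hb']; simp
  rw [h2]
  exact mul_mem (H.hA w hw) h

/-- admissible shifts of the first variable -/
def Mu (Λ : Submonoid (B R →ₐ[R] B R)) (p : B R) (hp : p ∈ Ad (X 0) (X 1)) : Submodule R (B R) where
  carrier := {g | g ∈ Ad (X 1) (X 2) ∧ ∀ r : R, cj p (T (C r * g) 0 0) ∈ Λ}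
  zero_mem' := ⟨zero_mem _, fun r => by rw [mul_zero, T_zero, cj_one hp]; exact one_mem _⟩
  add_mem' := by
    rintro g g' ⟨h1, h2⟩ ⟨h1', h2'⟩
    refine ⟨add_mem h1 h1', fun r => ?_⟩
    rw [mul_add, ← u_mul (mul_mem (C_mem _ _) h1'), cj_mul hp]
    exact mul_mem (h2 r) (h2' r)
  smul_mem' := by
    rintro c g ⟨h1, h2⟩
    refine ⟨Subalgebra.smul_mem _ h1 c, fun r => ?_⟩
    have := h2 (r * c)
    rwa [map_mul, mul_assoc, ← smul_eq_C_mul g] at this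

theorem col_mul (a b x y : B R) (i : ℕ) (hx : T a b 0 x = x) (hy : T a b 0 y = y) :
    T a b 0 * T (x * X 2 ^ i) (y * X 2 ^ i) 0 = T (a + x * X 2 ^ i) (b + y * X 2 ^ i) 0 := by
  rw [T_mul]; simp [hx, hy]

/-- admissible directions in degree `i` -/
def V (d : R) (Λ : Submonoid (B R →ₐ[R] B R)) (i : ℕ) (p : B R) (hp : p ∈ Ad (X 0) (X 1)) :
    Submodule R (R × R) where
  carrier := {v | ∀ r : R,
    cj p (T (C (d * r * v.1) * X 2 ^ i) (C (d * r * v.2) * X 2 ^ i) 0) ∈ Λ}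
  zero_mem' := fun r => by
    simp only [Prod.fst_zero, Prod.snd_zero, mul_zero, map_zero, zero_mul]
    rw [T_zero, cj_one hp]; exact one_mem _
  add_mem' := by
    intro v v' h h' r
    have h1 := mul_mem (h r) (h' r)
    rw [← cj_mul hp, col_mul _ _ _ _ _ (T_C _ _ _ _) (T_C _ _ _ _)] at h1
    simpa only [Prod.fst_add, Prod.snd_add, mul_add, map_add, add_mul] using h1
  smul_mem' := by
    intro c v h r
    have := h (r * c)
    simpa only [Prod.smul_fst, Prod.smul_snd, smul_eq_mul, mul_assoc] using this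

theorem V_congr {i : ℕ} {p q : B R} (hp : p ∈ Ad (X 0) (X 1)) (hq : q ∈ Ad (X 0) (X 1)) (h : p = q) :
    V d Λ i p hp = V d Λ i q hq := by subst h; rfl

theorem V_top {i : ℕ} {p : B R} (hp : p ∈ Ad (X 0) (X 1)) {s s' e : R} (he : e * (s - s') = 1)
    (h : (1, s) ∈ V d Λ i p hp) (h' : (1, s') ∈ V d Λ i p hp) : V d Λ i p hp = ⊤ := by
  refine eq_top_iff.mpr fun v _ => ?_
  have h1 : v = (e * (v.2 - v.1 * s')) • ((1 : R), s) + (e * (v.1 * s - v.2)) • ((1 : R), s') := by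
    ext
    · simp only [Prod.fst_add, Prod.smul_fst, smul_eq_mul]; linear_combination (-v.1) * he
    · simp only [Prod.snd_add, Prod.smul_snd, smul_eq_mul]; linear_combination (-v.2) * he
  rw [h1]
  exact add_mem (Submodule.smul_mem _ _ h) (Submodule.smul_mem _ _ h')

/-- the mixed monomials of degree `i` in the last variable are admissible -/
def Mixed (d : R) (Λ : Submonoid (B R →ₐ[R] B R)) (i : ℕ) : Prop :=
  ∀ (p : B R) (hp : p ∈ Ad (X 0) (X 1)) (j : ℕ), C d * (X 1 ^ j * X 2 ^ i) ∈ Mu Λ p hp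

theorem Ad11 {h : B R} (hh : h ∈ Ad (X 1) (X 1)) : h ∈ Ad (X 0) (X 1) :=
  Ad.le hh (Ad.right _ _) (Ad.right _ _)

theorem Mixed.mul {i : ℕ} (hm : Mixed d Λ i) {p : B R} (hp : p ∈ Ad (X 0) (X 1)) {h : B R}
    (hh : h ∈ Ad (X 1) (X 1)) : C d * (h * X 2 ^ i) ∈ Mu Λ p hp := by
  refine Ad.span hh ((Mu Λ p hp).comap (LinearMap.mulLeft R (C d) ∘ₗ
    LinearMap.mulRight R (X 2 ^ i))) fun j j' => ?_
  have := hm p hp (j + j')
  rw [pow_add] at this
  exact this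

theorem stepA {i : ℕ} (IH : ∀ i' < i, Mixed d Λ i') {p h : B R} (hp : p ∈ Ad (X 0) (X 1))
    (hh : h ∈ Ad (X 1) (X 1)) (h0 : (1, 0) ∈ V d Λ i p hp) :
    (1, 0) ∈ V d Λ i (p + h) (add_mem hp (Ad11 hh)) := by
  have h1 : C d * (X 2 - h) ^ i ∈ Mu Λ p hp := by
    rw [sub_eq_add_neg, add_pow, Finset.mul_sum, Finset.sum_range_succ]
    refine add_mem (Submodule.sum_mem _ fun l hl => ?_) ⟨?_, fun r => ?_⟩
    · have := (IH l (Finset.mem_range.mp hl)).mul hp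
        (h := (-h) ^ (i - l) * (i.choose l : ℕ)) (mul_mem (pow_mem (neg_mem hh) _) (natCast_mem _ _))
      convert this using 1
      ring
    · exact mul_mem (C_mem _ _) (mul_mem (mul_mem (pow_mem (Ad.right _ _) _)
        (pow_mem (neg_mem (Ad.le hh (Ad.left _ _) (Ad.left _ _))) _)) (natCast_mem _ _))
    · have := h0 r
      simp only [mul_one, mul_zero, map_zero, zero_mul] at this
      convert this using 3
      simp only [Nat.sub_self, pow_zero, Nat.choose_self, Nat.cast_one, mul_one, map_mul]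
      ring
  intro r
  have h2 := h1.2 r
  simp only [mul_one, mul_zero, map_zero, zero_mul]
  rw [cj_add hp (Ad11 hh), cj_T (Ad11 hh), map_zero,
    fixU (Ad.le hh (Ad.left _ _) (Ad.left _ _)), sub_self]
  convert h2 using 3
  simp only [map_mul, map_pow, T_C, T_X2]
  ring

theorem lin_mem (s : R) : C s * X 0 ∈ Ad (X 0 : B R) (X 1) := mul_mem (C_mem _ _) (Ad.left _ _)

theorem lin_inv (s : R) : T (0 : B R) (C s * X 0) 0 * T 0 (C (-s) * X 0) 0 = 1 := by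
  rw [t_mul (mul_mem (C_mem _ _) (Ad.left _ _)), ← T_zero]
  exact T_congr rfl (by simp) rfl

theorem Hyp.dir (H : Hyp d Λ) {i : ℕ} {p : B R} (hp : p ∈ Ad (X 0) (X 1)) (s x y : R)
    (h : (x, y) ∈ V d Λ i (T 0 (C (-s) * X 0) 0 p) (plane_mem (zero_mem _) (lin_mem _) hp)) :
    (x, y - s * x) ∈ V d Λ i p hp := by
  intro r
  have h1 : T (C (d * r * x) * X 2 ^ i) (C (d * r * (y - s * x)) * X 2 ^ i) 0 =
      T 0 (C s * X 0) 0 * T (C (d * r * x) * X 2 ^ i) (C (d * r * y) * X 2 ^ i) (0 : B R) *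
        T 0 (C (-s) * X 0) 0 := by
    apply ext3 <;> simp [AlgHom.mul_apply]
    ring
  rw [h1, cj_plane (zero_mem _) (lin_mem _) (zero_mem _) (lin_mem _) (lin_inv s)]
  exact mul_mem (mul_mem (H.ht _ (mul_mem (C_mem _ _) (Ad.left _ _))) (h r))
    (H.ht _ (mul_mem (C_mem _ _) (Ad.left _ _)))

/-- the linear form `t - s u` -/
noncomputable def ell (s : R) : B R := X 1 - C s * X 0

theorem ell_mem (s : R) : ell s ∈ Ad (X 0 : B R) (X 1) := sub_mem (Ad.right _ _) (lin_mem s)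

theorem Adll {s : R} {h : B R} (hh : h ∈ Ad (ell s) (ell s)) : h ∈ Ad (X 0) (X 1) :=
  Ad.le hh (ell_mem s) (ell_mem s)

theorem ell_map {s : R} {h : B R} (hh : h ∈ Ad (ell s) (ell s)) :
    T 0 (C (- -s) * X 0) 0 h ∈ Ad (X 1) (X 1) := by
  have h1 : T 0 (C (- -s) * X 0) 0 (ell s) = X 1 := by simp [ell]
  exact Ad.map hh (h1 ▸ Ad.left _ _) (h1 ▸ Ad.left _ _)

theorem Hyp.stepS (H : Hyp d Λ) {i : ℕ} (IH : ∀ i' < i, Mixed d Λ i') {s : R} {p h : B R}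
    (hp : p ∈ Ad (X 0) (X 1)) (hh : h ∈ Ad (ell s) (ell s)) (h0 : (1, s) ∈ V d Λ i p hp) :
    (1, s) ∈ V d Λ i (p + h) (add_mem hp (Adll hh)) := by
  have hq : T 0 (C (- -s) * X 0) 0 p ∈ Ad (X 0 : B R) (X 1) := plane_mem (zero_mem _) (lin_mem _) hp
  have h1 : p = T 0 (C (-s) * X 0) 0 (T 0 (C (- -s) * X 0) 0 p) := by
    rw [← AlgHom.mul_apply, lin_inv, AlgHom.one_apply]
  rw [V_congr hp (plane_mem (zero_mem _) (lin_mem _) hq) h1] at h0
  have h2 := H.dir hq s 1 s h0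
  rw [mul_one, sub_self] at h2
  have h3 := stepA IH hq (ell_map hh) h2
  rw [V_congr _ (plane_mem (zero_mem _) (lin_mem _) (add_mem hp (Adll hh)))
    (map_add _ p h).symm] at h3
  have h4 := H.dir (add_mem hp (Adll hh)) (-s) 1 0 h3
  simpa using h4

theorem Hyp.cj_u (H : Hyp d Λ) {g h : B R} (hg : g ∈ Ad (X 1) (X 2)) (hh : h ∈ Ad (X 1) (X 1)) :
    cj h (T g 0 0) ∈ Λ := by
  have h1 : h ∈ Ad (X 1 : B R) (X 2) := Ad.le hh (Ad.left _ _) (Ad.left _ _)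
  rw [cj_T (Ad11 hh), map_zero, fixU h1, sub_self]
  exact H.hu _ (Ad.map hg (by rw [T_X1, add_zero]; exact Ad.left _ _)
    (by rw [T_X2]; exact add_mem (Ad.right _ _) (neg_mem h1)))

theorem Hyp.base (H : Hyp d Λ) (i : ℕ) {h : B R} (hh : h ∈ Ad (X 1) (X 1)) :
    V d Λ i h (Ad11 hh) = ⊤ := by
  have hA : (X 2 : B R) ^ i ∈ Ad (X 1) (X 2) := pow_mem (Ad.right _ _) _
  have h1 : ((1 : R), (0 : R)) ∈ V d Λ i h (Ad11 hh) := fun r => by
    simp only [mul_zero, map_zero, zero_mul]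
    exact H.cj_u (mul_mem (C_mem _ _) hA) hh
  have h3 : ∀ r : R, cj h (T 0 (C d * (C r * X 0)) 0) ∈ Λ := fun r => by
    have := H.plane (Ad11 hh) (zero_mem _) (lin_mem r)
    rw [mul_zero] at this
    exact this (H.ht _ (mul_mem (C_mem _ _) (mul_mem (C_mem _ _) (Ad.left _ _))))
  have h2 : ((0 : R), (1 : R)) ∈ V d Λ i h (Ad11 hh) := fun r => by
    have h4 : T (C (d * r * 0) * X 2 ^ i) (C (d * r * 1) * X 2 ^ i) (0 : B R) =
        T (X 2 ^ i) 0 0 * T 0 (C d * (C r * X 0)) 0 * T (-X 2 ^ i) 0 0 *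
          T 0 (C d * (C (-r) * X 0)) 0 := by
      apply ext3 <;> simp [AlgHom.mul_apply]
      ring
    rw [h4, cj_mul (Ad11 hh), cj_mul (Ad11 hh), cj_mul (Ad11 hh)]
    exact mul_mem (mul_mem (mul_mem (H.cj_u hA hh) (h3 r)) (H.cj_u (neg_mem hA) hh)) (h3 _)
  have h5 := add_mem h1 h2
  rw [Prod.mk_add_mk, add_zero, zero_add] at h5
  exact V_top _ (e := 1) (by simp) h5 h1

theorem Hyp.baseS (H : Hyp d Λ) (i : ℕ) {s : R} {h : B R} (hh : h ∈ Ad (ell s) (ell s)) :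
    V d Λ i h (Adll hh) = ⊤ := by
  refine eq_top_iff.mpr fun v _ => ?_
  have h1 := H.dir (i := i) (Adll hh) (-s) v.1 (v.2 - s * v.1)
    (by rw [H.base i (ell_map hh)]; trivial)
  simpa using h1

variable [Algebra ℚ R]

/-- sums of polynomials in finitely many linear forms -/
noncomputable def W (R : Type) [CommRing R] [Algebra ℚ R] (F : Finset ℚ) : Submodule R (B R) :=
  ⨆ s ∈ F, (Ad (ell (algebraMap ℚ R s)) (ell (algebraMap ℚ R s))).toSubmodule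

theorem W_le (F : Finset ℚ) {p : B R} (hp : p ∈ W R F) : p ∈ Ad (X 0) (X 1) :=
  (iSup₂_le fun _ _ _ hh => Adll hh : W R F ≤ (Ad (X 0) (X 1)).toSubmodule) hp

theorem W_split {F : Finset ℚ} {s : ℚ} (hs : s ∈ F) {p : B R} (hp : p ∈ W R F) :
    ∃ q ∈ W R (F.erase s), ∃ h ∈ Ad (ell (algebraMap ℚ R s)) (ell (algebraMap ℚ R s)),
      p = q + h := by
  rw [← Finset.insert_erase hs, W, Finset.iSup_insert] at hp
  obtain ⟨h, hh, q, hq, rfl⟩ := Submodule.mem_sup.mp hp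
  exact ⟨q, hq, h, hh, add_comm _ _⟩

theorem Hyp.allW (H : Hyp d Λ) {i : ℕ} (IH : ∀ i' < i, Mixed d Λ i') (n : ℕ) :
    ∀ F : Finset ℚ, F.card = n → ∀ (p : B R) (hp : p ∈ W R F), V d Λ i p (W_le F hp) = ⊤ := by
  induction n with
  | zero =>
    intro F hF p hp
    have h0 : p = 0 := by simpa [W, Finset.card_eq_zero.mp hF] using hp
    subst h0
    exact H.base i (zero_mem _)
  | succ n ih =>
    intro F hF p hp
    have key : ∀ s ∈ F, (1, algebraMap ℚ R s) ∈ V d Λ i p (W_le F hp) := fun s hs => by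
      obtain ⟨q, hq, h, hh, rfl⟩ := W_split hs hp
      refine H.stepS IH (W_le _ hq) hh ?_
      rw [ih _ (by rw [Finset.card_erase_of_mem hs, hF]; rfl) q hq]
      trivial
    by_cases h1 : 1 < F.card
    · obtain ⟨s, hs, s', hs', hne⟩ := Finset.one_lt_card.mp h1
      refine V_top _ (e := algebraMap ℚ R (s - s')⁻¹) ?_ (key s hs) (key s' hs')
      rw [← map_sub, ← map_mul, inv_mul_cancel₀ (sub_ne_zero.mpr hne), map_one]
    · obtain ⟨s, rfl⟩ := Finset.card_eq_one.mp (show F.card = 1 by omega)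
      obtain ⟨q, hq, h, hh, rfl⟩ := W_split (Finset.mem_singleton_self s) hp
      have h0 : q = 0 := by simpa [W] using hq
      subst h0
      rw [V_congr _ (Adll hh) (zero_add h)]
      exact H.baseS i hh

theorem exists_W {p : B R} (hp : p ∈ Ad (X 0) (X 1)) : ∃ F, p ∈ W R F := by
  refine Submodule.exists_finset_of_mem_iSup _ (Ad.span hp _ fun j i => ?_)
  have := vand_pow (⨆ s : ℚ, (Ad (ell (algebraMap ℚ R s)) (ell (algebraMap ℚ R s))).toSubmodule)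
    (1 : B R) (X 0) (X 1) j i fun s => by
      refine Submodule.mem_iSup_of_mem (-s) ?_
      have h1 : algebraMap ℚ R s • (X 0 : B R) + X 1 = ell (algebraMap ℚ R (-s)) := by
        rw [ell, smul_eq_C_mul, map_neg, map_neg]; ring
      rw [one_mul, h1]
      exact pow_mem (Ad.left _ _) _
  rwa [one_mul] at this

theorem vand_der {S : Type} [CommRing S] [Algebra R S] (W : Submodule R S) (x y : S) (j : ℕ)
    (h : ∀ s : ℚ, (algebraMap ℚ R s • x + y) ^ (j + 1) - y ^ (j + 1) ∈ W) : x * y ^ j ∈ W := by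
  have h1 := vand W (j + 2) (fun l => x ^ l * y ^ (j + 1 - l) * ((j + 1).choose l : ℕ) -
      if l = 0 then y ^ (j + 1) else 0)
    (fun s => by
      have h2 := h s
      rw [add_pow] at h2
      simp only [smul_sub, Finset.sum_sub_distrib]
      convert h2 using 2
      · refine Finset.sum_congr rfl fun l _ => ?_
        simp only [smul_pow, smul_mul_assoc]
      · rw [Finset.sum_eq_single 0] <;> simp +contextual) 1 (by omega)
  simp only [pow_one, Nat.add_sub_cancel, Nat.choose_one_right, one_ne_zero, if_false,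
    sub_zero] at h1
  exact of_nat_mul W (Nat.succ_ne_zero j) h1

theorem Hyp.mixed (H : Hyp d Λ) (i : ℕ) : Mixed d Λ i := by
  induction i using Nat.strong_induction_on with
  | _ i IH =>
  have hV : ∀ (p : B R) (hp : p ∈ Ad (X 0) (X 1)) (r : R),
      cj p (T 0 (C (d * r) * X 2 ^ i) 0) ∈ Λ := fun p hp r => by
    obtain ⟨F, hF⟩ := exists_W hp
    have h1 : ((0 : R), (1 : R)) ∈ V d Λ i p hp := by rw [H.allW IH _ F rfl p hF]; trivial
    simpa only [mul_zero, map_zero, zero_mul, mul_one] using h1 r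
  intro p hp j
  have hA : (X 2 : B R) ^ i ∈ Ad (X 1) (X 2) := pow_mem (Ad.right _ _) _
  have ht : ∀ r : R, C r * (X 1 : B R) ^ (j + 1) ∈ Ad (X 1) (X 1) :=
    fun r => mul_mem (C_mem _ _) (pow_mem (Ad.left _ _) _)
  have ht' : ∀ r : R, C r * (X 1 : B R) ^ (j + 1) ∈ Ad (X 1) (X 2) :=
    fun r => mul_mem (C_mem _ _) (pow_mem (Ad.left _ _) _)
  have h1 := vand_der (Mu Λ p hp) (C d * X 2 ^ i) (X 1) j fun s =>
    ⟨sub_mem (pow_mem (add_mem (Subalgebra.smul_mem _ (mul_mem (C_mem _ _) hA) _) (Ad.left _ _)) _)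
      (pow_mem (Ad.left _ _) _), fun r => by
      have h2 : T (C r * ((algebraMap ℚ R s • (C d * X 2 ^ i) + X 1) ^ (j + 1) - X 1 ^ (j + 1)))
          0 (0 : B R) = T 0 (C (d * algebraMap ℚ R s) * X 2 ^ i) 0 *
          (T (C r * X 1 ^ (j + 1)) 0 0 * T 0 (C (d * -algebraMap ℚ R s) * X 2 ^ i) 0 *
            T (C (-r) * X 1 ^ (j + 1)) 0 0) := by
        rw [smul_eq_C_mul]
        generalize algebraMap ℚ R s = c
        apply ext3 <;> simp [AlgHom.mul_apply]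
        ring
      have h3 : T (C r * X 1 ^ (j + 1)) 0 0 * T (C (-r) * X 1 ^ (j + 1)) 0 (0 : B R) = 1 := by
        rw [u_mul (ht' _), ← T_zero]
        exact T_congr (by simp) rfl rfl
      rw [h2, cj_mul hp, cj_plane (Ad11 (ht _)) (zero_mem _) (Ad11 (ht _)) (zero_mem _) h3]
      exact mul_mem (hV p hp _) (mul_mem (mul_mem (H.hu _ (ht' _))
        (hV _ (plane_mem (Ad11 (ht _)) (zero_mem _) hp) _)) (H.hu _ (ht' _)))⟩
  convert h1 using 1
  ring

theorem Hyp.ct (H : Hyp d Λ) {p f : B R} (hp : p ∈ Ad (X 0) (X 1)) (hf : f ∈ Ad (X 1) (X 2)) :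
    cj p (T (C d * f) 0 0) ∈ Λ := by
  have h1 : f ∈ (Mu Λ p hp).comap (LinearMap.mulLeft R (C d)) :=
    Ad.span hf _ fun j i => H.mixed i p hp j
  have h2 := h1.2 1
  rwa [map_one, one_mul] at h2

theorem Hyp.ct' (H : Hyp d Λ) {p f : B R} (hp : p ∈ Ad (X 0) (X 1)) (hf : f ∈ Ad (X 0) (X 2)) :
    cj p (T 0 (C d * f) 0) ∈ Λ := by
  have hu : (X 0 : B R) ∈ Ad (X 0) (X 1) := Ad.left _ _
  have ht : (X 1 : B R) ∈ Ad (X 0) (X 1) := Ad.right _ _
  have h1 : T (X 1 - X 0) (-X 0 - X 1) 0 * T (-X 1 - X 0) (X 0 - X 1) (0 : B R) = 1 := by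
    apply ext3 <;> simp [AlgHom.mul_apply]
  have h2 : T (X 1 - X 0) (-X 0 - X 1) 0 = T (X 1) 0 0 * T 0 (-X 0) 0 * T (X 1) 0 (0 : B R) := by
    apply ext3 <;> simp [AlgHom.mul_apply]
  have h3 : T (-X 1 - X 0) (X 0 - X 1) 0 = T (-X 1) 0 0 * T 0 (X 0) 0 * T (-X 1) 0 (0 : B R) := by
    apply ext3 <;> simp [AlgHom.mul_apply]
  have h4 : T 0 (C d * f) 0 = T (X 1 - X 0) (-X 0 - X 1) 0 *
      T (C d * T (-X 1 - X 0) (X 0 - X 1) 0 f) 0 0 * T (-X 1 - X 0) (X 0 - X 1) (0 : B R) := by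
    have h5 := DFunLike.congr_fun h1 f
    rw [AlgHom.mul_apply, AlgHom.one_apply] at h5
    apply ext3 <;> simp [AlgHom.mul_apply, h5]
  rw [h4, cj_plane (sub_mem ht hu) (sub_mem (neg_mem hu) ht) (sub_mem (neg_mem ht) hu)
    (sub_mem hu ht) h1]
  refine mul_mem (mul_mem ?_ (H.ct (plane_mem (sub_mem (neg_mem ht) hu) (sub_mem hu ht) hp)
    (Ad.map hf ?_ ?_))) ?_
  · rw [h2]
    exact mul_mem (mul_mem (H.hu _ (Ad.left _ _)) (H.ht _ (neg_mem (Ad.left _ _))))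
      (H.hu _ (Ad.left _ _))
  · simpa using Ad.left (X 1 : B R) (X 2)
  · simpa using Ad.right (X 1 : B R) (X 2)
  · rw [h3]
    exact mul_mem (mul_mem (H.hu _ (neg_mem (Ad.left _ _))) (H.ht _ (Ad.left _ _)))
      (H.hu _ (neg_mem (Ad.left _ _)))

/-- admissible flows along `P` -/
def Mg (Λ : Submonoid (B R →ₐ[R] B R)) (e : R) (P p : B R) (hp : p ∈ Ad (X 0) (X 1)) :
    Submodule R (B R) where
  carrier := {f | f ∈ Ad P (X 2) ∧ ∀ r : R, ∃ γ : B R →ₐ[R] B R, γ (X 0) = X 0 + C (e * r) * f ∧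
    γ P = P ∧ γ (X 2) = X 2 ∧ cj p γ ∈ Λ}
  zero_mem' := ⟨zero_mem _, fun r => ⟨1, by simp, rfl, rfl, by rw [cj_one hp]; exact one_mem _⟩⟩
  add_mem' := by
    rintro g g' ⟨h1, h2⟩ ⟨h1', h2'⟩
    refine ⟨add_mem h1 h1', fun r => ?_⟩
    obtain ⟨γ, e1, e2, e3, e4⟩ := h2 r
    obtain ⟨γ', e1', e2', e3', e4'⟩ := h2' r
    refine ⟨γ * γ', ?_, ?_, ?_, ?_⟩
    · rw [AlgHom.mul_apply, e1', map_add, map_mul, e1, Ad.fix h1' e2 e3, algHom_C]
      simp only [algebraMap_eq]; ring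
    · rw [AlgHom.mul_apply, e2', e2]
    · rw [AlgHom.mul_apply, e3', e3]
    · rw [cj_mul hp]; exact mul_mem e4 e4'
  smul_mem' := by
    rintro c g ⟨h1, h2⟩
    refine ⟨Subalgebra.smul_mem _ h1 c, fun r => ?_⟩
    obtain ⟨γ, e1, e2⟩ := h2 (r * c)
    refine ⟨γ, ?_, e2⟩
    rw [e1, smul_eq_C_mul]; simp only [map_mul]; ring

theorem Hyp.gt (H : Hyp d Λ) (α : R) {p₁ p f : B R} (hp₁ : p₁ ∈ Ad (X 0) (X 0))
    (hp : p ∈ Ad (X 0) (X 1)) (hf : f ∈ Ad (C α * X 1 - p₁) (X 2)) :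
    f ∈ Mg Λ (α * d) (C α * X 1 - p₁) p hp := by
  have hp₁' : p₁ ∈ Ad (X 0 : B R) (X 2) := Ad.le hp₁ (Ad.left _ _) (Ad.left _ _)
  have hP : C α * X 1 - p₁ ∈ Ad (X 0 : B R) (X 1) :=
    sub_mem (mul_mem (C_mem _ _) (Ad.right _ _)) (Ad.le hp₁ (Ad.left _ _) (Ad.left _ _))
  refine Ad.span hf _ fun j i => ?_
  have h0 := vand_pow (Mg Λ (α * d) (C α * X 1 - p₁) p hp) 1 (C α * X 1 - p₁) (X 2) j i fun s => by
    rw [one_mul, smul_eq_C_mul]
    generalize algebraMap ℚ R s = c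
    generalize j + i = m
    refine ⟨pow_mem (add_mem (mul_mem (C_mem _ _) (Ad.left _ _)) (Ad.right _ _)) _, fun r => ?_⟩
    have hA : C (α * r) * (X 2 : B R) ^ m ∈ Ad (X 1) (X 2) :=
      mul_mem (C_mem _ _) (pow_mem (Ad.right _ _) _)
    have hr : C r * (X 2 : B R) ^ m ∈ Ad (X 0) (X 2) :=
      mul_mem (C_mem _ _) (pow_mem (Ad.right _ _) _)
    have he : T (C d * (C (α * r) * X 2 ^ m)) 0 0 (X 0 : B R) =
        X 0 + C (α * d) * (C r * X 2 ^ m) := by simp only [T_X0, map_mul]; ring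
    obtain ⟨w, hw, h1⟩ := exists_quot hp₁ (T (C d * (C (α * r) * X 2 ^ m)) 0 0) (C (α * d))
      (Ad (X 0) (X 2)) (C_mem _ _) (Ad.left _ _) (Ad.left _ _) ⟨_, hr, he⟩ ⟨_, hr, he⟩
    have hq : -(C c * (C α * X 1 - p₁)) ∈ Ad (X 0 : B R) (X 1) := neg_mem (mul_mem (C_mem _ _) hP)
    have hδ : (T 0 (C d * w) 0 * T (C d * (C (α * r) * X 2 ^ m)) 0 0 : B R →ₐ[R] B R)
        (C α * X 1 - p₁) = C α * X 1 - p₁ := by
      simp only [AlgHom.mul_apply, map_sub, h1, map_add, fixT hp₁', fixT hw, map_mul (T _ _ _),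
        T_C, T_X1, add_zero]
      rw [map_mul]; ring
    refine ⟨cj (-(C c * (C α * X 1 - p₁)))
      (T 0 (C d * w) 0 * T (C d * (C (α * r) * X 2 ^ m)) 0 0), ?_, ?_, ?_, ?_⟩
    · simp only [cj, AlgHom.mul_apply, T_X0, T_X2, T_C, map_add, map_mul, map_pow, add_zero,
        neg_neg]
      ring
    · rw [cj, AlgHom.mul_apply, AlgHom.mul_apply, fixA hP, hδ, fixA hP]
    · rw [cj, AlgHom.mul_apply, AlgHom.mul_apply, T_X2, map_add, map_neg,
        map_mul _ (C c), hδ]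
      simp only [AlgHom.mul_apply, T_X2, T_C, add_zero, map_add, map_neg, map_mul (T _ _ _),
        fixA hP]
      ring
    · rw [← cj_add hp hq, cj_mul (add_mem hp hq)]
      exact mul_mem (H.ct' (add_mem hp hq) hw) (H.ct (add_mem hp hq) hA)
  rwa [one_mul] at h0

/-- the flow `u ↦ u + α d f` fixing `α t - p₁` and `A - p` lies in the monoid -/
theorem Hyp.flow (H : Hyp d Λ) (α : R) {p₁ p f : B R} (hp₁ : p₁ ∈ Ad (X 0) (X 0))
    (hp : p ∈ Ad (X 0) (X 1)) (hf : f ∈ Ad (C α * X 1 - p₁) (X 2 - p)) :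
    ∃ φ ∈ Λ, φ (X 0) = X 0 + C α * C d * f ∧ φ (C α * X 1 - p₁) = C α * X 1 - p₁ ∧
      φ (X 2 - p) = X 2 - p := by
  have hP : C α * X 1 - p₁ ∈ Ad (X 0 : B R) (X 1) :=
    sub_mem (mul_mem (C_mem _ _) (Ad.right _ _)) (Ad.le hp₁ (Ad.left _ _) (Ad.left _ _))
  have h1 : T 0 0 p (X 2 - p) = X 2 := by rw [map_sub, T_X2, fixA hp]; ring
  have h2 : T 0 0 p f ∈ Ad (C α * X 1 - p₁) (X 2) :=
    Ad.map hf (by rw [fixA hP]; exact Ad.left _ _) (by rw [h1]; exact Ad.right _ _)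
  obtain ⟨γ, e1, e2, e3, e4⟩ := (H.gt α hp₁ hp h2).2 1
  have h3 : T 0 0 (-p) (T 0 0 p f) = f := by
    rw [← AlgHom.mul_apply, k_mul hp, neg_add_cancel, T_zero, AlgHom.one_apply]
  refine ⟨_, e4, ?_, ?_, ?_⟩
  · rw [cj, AlgHom.mul_apply, AlgHom.mul_apply, T_X0, add_zero, e1, map_add, map_mul, h3]
    simp
  · rw [cj, AlgHom.mul_apply, AlgHom.mul_apply, fixA hP, e2, fixA hP]
  · rw [cj, AlgHom.mul_apply, AlgHom.mul_apply, h1, e3, T_X2, sub_eq_add_neg]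

end Pool.Agent.Lib.AN30
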