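import Pool.Agent.Lib.AN30.Basic
import Pool.Agent.Lib.MP_1309d3_ag.Defs

/-! A group containing the affine maps and one quadratic shear contains all elementary maps. -/

set_option autoImplicit false

namespace Pool.Agent.Lib.AN30

open MvPolynomial Pool.Agent.Lib.MP_1309d3_ag

variable {n : ℕ}

/-- polynomials in `n` variables -/
abbrev PS (n : ℕ) : Type := MvPolynomial (Fin n) ℂ

theorem X_sup {s : Set (Fin n)} {l : Fin n} (h : l ∈ s) : (X l : PS n) ∈ supported ℂ s :=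
  Algebra.subset_adjoin ⟨l, h, rfl⟩

theorem sup_fix {s : Set (Fin n)} {q : PS n} (hq : q ∈ supported ℂ s) {φ : PS n →ₐ[ℂ] PS n}
    (h : ∀ l ∈ s, φ (X l) = X l) : φ q = q :=
  (Algebra.adjoin_le (S := AlgHom.equalizer φ (AlgHom.id ℂ _)) (by
    rintro _ ⟨l, hl, rfl⟩; exact h l hl)) hq

theorem sup_fix' {s : Set (Fin n)} {q : PS n} (hq : q ∈ supported ℂ s) {φ : Aut n}
    (h : ∀ l ∈ s, φ (X l) = X l) : φ q = q := sup_fix hq (φ := (φ : PS n →ₐ[ℂ] PS n)) h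

theorem sup_map {s s' : Set (Fin n)} {q : PS n} (hq : q ∈ supported ℂ s) {φ : Aut n}
    (h : ∀ l ∈ s, φ (X l) ∈ supported ℂ s') : φ q ∈ supported ℂ s' :=
  (Algebra.adjoin_le (S := (supported ℂ s').comap (φ : PS n →ₐ[ℂ] PS n)) (by
    rintro _ ⟨l, hl, rfl⟩; exact h l hl)) hq

theorem exists_aut (a : Fin n) (c : ℂ) (hc : c ≠ 0) {q : PS n} (hq : q ∈ supported ℂ {a}ᶜ) :
    ∃ φ : Aut n, φ (X a) = c • X a + q ∧ ∀ l, l ≠ a → φ (X l) = X l := by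
  have h1 : ∀ (x : PS n) {r : PS n}, r ∈ supported ℂ {a}ᶜ →
      aeval (Function.update X a x) r = r := fun x r hr =>
    sup_fix hr fun l hl => by rw [aeval_X, Function.update_of_ne hl]
  refine ⟨AlgEquiv.ofAlgHom (aeval (Function.update X a (c • X a + q)))
    (aeval (Function.update X a (c⁻¹ • (X a - q)))) ?_ ?_, by simp, fun l hl => by simp [hl]⟩
  · refine algHom_ext fun l => ?_
    by_cases hl : l = a
    · subst hl
      simp [-aeval_eq_bind₁, h1 _ hq, smul_smul, hc]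
    · simp [hl]
  · refine algHom_ext fun l => ?_
    by_cases hl : l = a
    · subst hl
      simp [-aeval_eq_bind₁, h1 _ hq, smul_smul, hc]
    · simp [hl]

theorem inv_fix {φ : Aut n} {x : PS n} (h : φ x = x) : φ⁻¹ x = x := by
  conv_lhs => rw [← h]
  exact φ.symm_apply_apply x

theorem aff_of {φ : Aut n} {a : Fin n} (h : (φ (X a)).totalDegree ≤ 1)
    (h' : ∀ l, l ≠ a → φ (X l) = X l) : φ ∈ Aff n := fun l => by
  by_cases hl : l = a
  · rwa [hl]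
  · rw [h' l hl, totalDegree_X]

theorem deg_smul_X (c : ℂ) (l : Fin n) : (c • X l : PS n).totalDegree ≤ 1 :=
  (totalDegree_smul_le _ _).trans (totalDegree_X l).le

variable {Γ : Subgroup (Aut n)}

/-- the shears of the variable `a` lying in the group -/
def Hs (Γ : Subgroup (Aut n)) (hΓ : Aff n ⊆ Γ) (a : Fin n) : Submodule ℂ (PS n) where
  carrier := {q | q ∈ supported ℂ {a}ᶜ ∧
    ∃ φ ∈ Γ, φ (X a) = X a + q ∧ ∀ l, l ≠ a → φ (X l) = X l}
  zero_mem' := ⟨zero_mem _, 1, one_mem _, by simp, fun _ _ => rfl⟩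
  add_mem' := by
    rintro q q' ⟨h1, φ, h2, h3, h4⟩ ⟨h1', φ', h2', h3', h4'⟩
    refine ⟨add_mem h1 h1', φ * φ', mul_mem h2 h2', ?_, fun l hl => ?_⟩
    · rw [AlgEquiv.mul_apply, h3', map_add, h3, sup_fix' h1' h4, add_assoc]
    · rw [AlgEquiv.mul_apply, h4' l hl, h4 l hl]
  smul_mem' := by
    rintro c q ⟨h1, φ, h2, h3, h4⟩
    refine ⟨Subalgebra.smul_mem _ h1 c, ?_⟩
    by_cases hc : c = 0
    · exact ⟨1, one_mem _, by simp [hc], fun _ _ => rfl⟩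
    obtain ⟨σ, e1, e2⟩ := exists_aut a c hc (zero_mem _)
    rw [add_zero] at e1
    have hσ : σ ∈ Γ := hΓ (aff_of (e1 ▸ deg_smul_X c a) e2)
    refine ⟨σ⁻¹ * φ * σ, mul_mem (mul_mem (inv_mem hσ) h2) hσ, ?_, fun l hl => ?_⟩
    · rw [AlgEquiv.mul_apply, AlgEquiv.mul_apply, e1, map_smul, h3, smul_add, ← e1, map_add,
        map_smul, inv_fix (sup_fix' h1 e2)]
      exact congrArg (· + c • q) (σ.symm_apply_apply _)
    · rw [AlgEquiv.mul_apply, AlgEquiv.mul_apply, e2 l hl, h4 l hl, inv_fix (e2 l hl)]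

theorem Hs.conj (hΓ : Aff n ⊆ Γ) {a a' : Fin n} {σ : Aut n} (hσ : σ ∈ Γ) (h1 : σ (X a') = X a)
    (h2 : ∀ l, l ≠ a' → σ (X l) ∈ supported ℂ {a}ᶜ)
    (h3 : ∀ l, l ≠ a → σ⁻¹ (X l) ∈ supported ℂ {a'}ᶜ) {q : PS n} (hq : q ∈ Hs Γ hΓ a') :
    σ q ∈ Hs Γ hΓ a := by
  obtain ⟨e1, φ, e2, e3, e4⟩ := hq
  refine ⟨sup_map e1 h2, σ * φ * σ⁻¹, mul_mem (mul_mem hσ e2) (inv_mem hσ), ?_, fun l hl => ?_⟩
  · have : σ⁻¹ (X a) = X a' := by rw [← h1]; exact σ.symm_apply_apply _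
    rw [AlgEquiv.mul_apply, AlgEquiv.mul_apply, this, e3, map_add, h1]
  · rw [AlgEquiv.mul_apply, AlgEquiv.mul_apply, sup_fix' (h3 l hl) e4]
    exact σ.apply_symm_apply _

theorem Hs.shear (hΓ : Aff n ⊆ Γ) {a b : Fin n} (hab : a ≠ b) {r : PS n} (hr : r ∈ Hs Γ hΓ b)
    (hr' : r ∈ supported ℂ {a}ᶜ) : ∃ σ : Aut n, σ (X b) = X b + r ∧ (∀ l, l ≠ b → σ (X l) = X l) ∧
      ∀ q ∈ Hs Γ hΓ a, σ q ∈ Hs Γ hΓ a := by
  obtain ⟨e1, σ, e2, e3, e4⟩ := hr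
  refine ⟨σ, e3, e4, fun q hq => Hs.conj hΓ e2 (e4 a hab) (fun l hl => ?_) (fun l hl => ?_) hq⟩
  · by_cases h : l = b
    · rw [h, e3]; exact add_mem (X_sup hab.symm) hr'
    · rw [e4 l h]; exact X_sup hl
  · by_cases h : l = b
    · have : σ⁻¹ (X b) = X b - r := by
        rw [← σ.injective.eq_iff, map_sub, e3, sup_fix' e1 e4, add_sub_cancel_right]
        exact σ.apply_symm_apply _
      rw [h, this]; exact sub_mem (X_sup hab.symm) hr'
    · rw [inv_fix (e4 l h)]; exact X_sup hl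

theorem Hs.aff (hΓ : Aff n ⊆ Γ) {a : Fin n} {q : PS n} (hq : q ∈ supported ℂ {a}ᶜ)
    (h : q.totalDegree ≤ 1) : q ∈ Hs Γ hΓ a := by
  obtain ⟨σ, e1, e2⟩ := exists_aut a 1 one_ne_zero hq
  rw [one_smul] at e1
  refine ⟨hq, σ, hΓ (aff_of ?_ e2), e1, e2⟩
  rw [e1]
  exact (totalDegree_add _ _).trans (max_le (totalDegree_X a).le h)

theorem Hs.sq (hΓ : Aff n ⊆ Γ) {a₀ b₀ : Fin n} (h₀ : a₀ ≠ b₀) (h : X b₀ ^ 2 ∈ Hs Γ hΓ a₀)
    {a b : Fin n} (hab : a ≠ b) : X b ^ 2 ∈ Hs Γ hΓ a := by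
  obtain ⟨π, h1, h2⟩ : ∃ π : Equiv.Perm (Fin n), π a₀ = a ∧ π b₀ = b := by
    refine ⟨Equiv.swap (Equiv.swap a₀ a b₀) b * Equiv.swap a₀ a, ?_, by simp⟩
    rw [Equiv.Perm.mul_apply, Equiv.swap_apply_left, Equiv.swap_apply_of_ne_of_ne _ hab]
    intro e
    exact h₀ ((Equiv.swap a₀ a).injective ((Equiv.swap_apply_left a₀ a).trans e))
  have h3 := Hs.conj hΓ (a := a) (σ := renameEquiv ℂ π) (hΓ fun l => by simp) (by simp [h1])
    (fun l hl => by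
      rw [renameEquiv_apply, rename_X]
      exact X_sup fun e => hl (π.injective (e.trans h1.symm)))
    (fun l hl => by
      have : (renameEquiv ℂ π)⁻¹ (X l) = (X (π.symm l) : PS n) := by
        rw [← (renameEquiv ℂ π).injective.eq_iff]
        exact ((renameEquiv ℂ π).apply_symm_apply _).trans (by simp)
      rw [this]
      exact X_sup fun e => hl (by rw [← h1, ← Set.mem_singleton_iff.mp e]; simp)) h
  simpa [h2] using h3

theorem Hs.mix (hΓ : Aff n ⊆ Γ) {a b c : Fin n} (hab : a ≠ b) (hac : a ≠ c) (hbc : b ≠ c)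
    {s : Set (Fin n)} (hs : b ∉ s) {g : PS n} (hg : g ∈ supported ℂ s) (j i : ℕ)
    (h : g * X b ^ (j + i) ∈ Hs Γ hΓ a) : g * (X c ^ j * X b ^ i) ∈ Hs Γ hΓ a := by
  refine vand_pow _ _ _ _ _ _ fun t => ?_
  obtain ⟨σ, e1, e2, e3⟩ := Hs.shear hΓ hab (Hs.aff hΓ (q := algebraMap ℚ ℂ t • X c)
    (Subalgebra.smul_mem _ (X_sup hbc.symm) _) (deg_smul_X _ _))
    (Subalgebra.smul_mem _ (X_sup hac.symm) _)
  have := e3 _ h
  rwa [map_mul, map_pow, e1, sup_fix' hg fun l hl => e2 l fun e => hs (e ▸ hl), add_comm (X b)]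
    at this

theorem Hs.pow (hΓ : Aff n ⊆ Γ) (h3 : ∀ a b : Fin n, ∃ c, a ≠ c ∧ b ≠ c)
    (h : ∀ a b, a ≠ b → X b ^ 2 ∈ Hs Γ hΓ a) (m : ℕ) :
    ∀ a b, a ≠ b → X b ^ m ∈ Hs Γ hΓ a := by
  induction m with
  | zero => exact fun a b _ => Hs.aff hΓ (by simp) (by simp)
  | succ m ih =>
    intro a b hab
    obtain ⟨c, hac, hbc⟩ := h3 a b
    have h1 : X c * X b ∈ Hs Γ hΓ a := by
      simpa using Hs.mix hΓ hab hac hbc (s := ∅) (by simp) (one_mem _) 1 1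
        (by simpa using h a b hab)
    obtain ⟨σ, e1, e2, e3⟩ := Hs.shear hΓ hac (ih c b hbc.symm) (pow_mem (X_sup hab.symm) _)
    have h2 := sub_mem (e3 _ h1) h1
    rw [map_mul, e1, e2 b hbc] at h2
    convert h2 using 1
    ring

theorem sup_insert {s : Set (Fin n)} {c : Fin n} (W : Submodule ℂ (PS n))
    (h : ∀ g ∈ supported ℂ s, ∀ j : ℕ, g * X c ^ j ∈ W) {q : PS n}
    (hq : q ∈ supported ℂ (insert c s)) : q ∈ W := by
  have h1 : q ∈ (Algebra.adjoin ℂ (X '' insert c s : Set (PS n))).toSubmodule := hq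
  rw [Algebra.adjoin_eq_span] at h1
  refine Submodule.span_le.mpr (fun z hz => ?_) h1
  obtain ⟨g, hg, j, rfl⟩ : ∃ g ∈ supported ℂ s, ∃ j : ℕ, z = g * X c ^ j := by
    induction hz using Submonoid.closure_induction with
    | mem x hx =>
      obtain ⟨l, rfl | hl, rfl⟩ := hx
      · exact ⟨1, one_mem _, 1, by simp⟩
      · exact ⟨X l, X_sup hl, 0, by simp⟩
    | one => exact ⟨1, one_mem _, 0, by simp⟩
    | mul x y _ _ hx hy =>
      obtain ⟨g, hg, j, rfl⟩ := hx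
      obtain ⟨g', hg', j', rfl⟩ := hy
      exact ⟨g * g', mul_mem hg hg', j + j', by ring⟩
  exact h g hg j

theorem Hs.fin (hΓ : Aff n ⊆ Γ) {a : Fin n} (h : ∀ (m : ℕ) b, a ≠ b → X b ^ m ∈ Hs Γ hΓ a)
    (s : Finset (Fin n)) : a ∉ s → ∀ b, b ∉ s → a ≠ b → ∀ g ∈ supported ℂ (s : Set (Fin n)),
      ∀ m : ℕ, g * X b ^ m ∈ Hs Γ hΓ a := by
  induction s using Finset.induction_on with
  | empty =>
    intro _ b _ hab g hg m
    rw [Finset.coe_empty, supported_empty, Algebra.mem_bot] at hg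
    obtain ⟨c, rfl⟩ := hg
    rw [← Algebra.smul_def]
    exact Submodule.smul_mem _ _ (h m b hab)
  | insert c s hc ih =>
    intro ha b hb hab g hg m
    rw [Finset.mem_insert, not_or] at ha hb
    rw [Finset.coe_insert] at hg
    have h2 : g ∈ (Hs Γ hΓ a).comap (LinearMap.mulRight ℂ (X b ^ m)) := by
      refine sup_insert _ (fun g hg j => ?_) hg
      have := Hs.mix hΓ hab ha.1 hb.1 (Finset.mem_coe.not.mpr hb.2) hg j m
        (ih ha.2 b hb.2 hab g hg _)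
      rw [← mul_assoc] at this
      rwa [Submodule.mem_comap, LinearMap.mulRight_apply]
    rwa [Submodule.mem_comap, LinearMap.mulRight_apply] at h2

theorem Hs.all (hΓ : Aff n ⊆ Γ) (h3 : ∀ a b : Fin n, ∃ c, a ≠ c ∧ b ≠ c) {a₀ b₀ : Fin n}
    (h₀ : a₀ ≠ b₀) (h : X b₀ ^ 2 ∈ Hs Γ hΓ a₀) {a : Fin n} {q : PS n}
    (hq : q ∈ supported ℂ {a}ᶜ) : q ∈ Hs Γ hΓ a := by
  obtain ⟨b, hab, -⟩ := h3 a a
  have h1 := Hs.fin hΓ (fun m b => Hs.pow hΓ h3 (fun _ _ => Hs.sq hΓ h₀ h) m a b)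
    ((Finset.univ.erase a).erase b) (by simp) b (by simp) hab
  refine sup_insert _ h1 (supported_mono (fun l hl => ?_) hq)
  by_cases e : l = b
  · exact Or.inl e
  · exact Or.inr (Finset.mem_coe.mpr (Finset.mem_erase.mpr
      ⟨e, Finset.mem_erase.mpr ⟨hl, Finset.mem_univ _⟩⟩))

end Pool.Agent.Lib.AN30
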