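import Pool.Agent.Lib.AN30.Core
import Pool.Agent.Lib.AN30.Derk

/-! Transfer of the three-variable theorem to automorphisms of affine space. -/

set_option autoImplicit false

namespace Pool.Agent.Lib.AN30

open MvPolynomial Pool.Agent.Lib.MP_1309d3_ag

variable {n : ℕ}

section

variable (S : Subalgebra ℂ (PS n)) (x y z : PS n)

/-- evaluation of the three variables -/
noncomputable def io : B S →ₐ[S] PS n := aeval ![x, y, z]

@[simp] theorem io_X0 : io S x y z (X 0) = x := by simp [io]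
@[simp] theorem io_X1 : io S x y z (X 1) = y := by simp [io]
@[simp] theorem io_X2 : io S x y z (X 2) = z := by simp [io]
@[simp] theorem io_C (r : S) : io S x y z (C r) = r := by
  rw [algHom_C]; rfl

/-- the endomorphisms induced by a group of automorphisms -/
def Lam (Γ : Subgroup (Aut n)) : Submonoid (B S →ₐ[S] B S) where
  carrier := {γ | ∃ φ ∈ Γ, ∀ w, φ (io S x y z w) = io S x y z (γ w)}
  one_mem' := ⟨1, one_mem _, fun _ => rfl⟩
  mul_mem' := by
    rintro γ γ' ⟨φ, h1, h2⟩ ⟨φ', h1', h2'⟩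
    exact ⟨φ * φ', mul_mem h1 h1', fun w => by
      rw [AlgEquiv.mul_apply, h2', h2, AlgHom.mul_apply]⟩

variable {S x y z}

theorem T_mem_Lam {Γ : Subgroup (Aut n)} {φ : Aut n} (h : φ ∈ Γ) (hS : ∀ r ∈ S, φ r = r)
    {a b c : B S} (hx : φ x = x + io S x y z a) (hy : φ y = y + io S x y z b)
    (hz : φ z = z + io S x y z c) : T a b c ∈ Lam S x y z Γ := by
  refine ⟨φ, h, fun w => ?_⟩
  induction w using MvPolynomial.induction_on with
  | C r => rw [T_C, io_C, hS r r.2]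
  | add p q hp hq => simp only [map_add, hp, hq]
  | mul_X p l hp =>
    simp only [map_mul, hp]
    congr 1
    fin_cases l <;> simp [hx, hy, hz]

theorem io_mem {u v g : B S} (hg : g ∈ Ad u v) {U : Subalgebra ℂ (PS n)} (hS : S ≤ U)
    (hu : io S x y z u ∈ U) (hv : io S x y z v ∈ U) : io S x y z g ∈ U := by
  induction hg using Algebra.adjoin_induction with
  | mem w hw => rcases hw with rfl | rfl <;> assumption
  | algebraMap r => rw [AlgHom.commutes]; exact hS r.2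
  | add _ _ _ _ h h' => rw [map_add]; exact add_mem h h'
  | mul _ _ _ _ h h' => rw [map_mul]; exact mul_mem h h'

theorem io_lift {s : Set (PS n)} {q : PS n} (hq : q ∈ Algebra.adjoin ℂ s) (u v : B S)
    (h : ∀ w ∈ s, w ∈ S ∨ w = io S x y z u ∨ w = io S x y z v) :
    ∃ g ∈ Ad u v, io S x y z g = q := by
  induction hq using Algebra.adjoin_induction with
  | mem w hw =>
    rcases h w hw with e | rfl | rfl
    · exact ⟨C ⟨w, e⟩, C_mem _ _, io_C _ _ _ _ _⟩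
    · exact ⟨u, Ad.left _ _, rfl⟩
    · exact ⟨v, Ad.right _ _, rfl⟩
  | algebraMap r => exact ⟨C ⟨_, S.algebraMap_mem r⟩, C_mem _ _, io_C _ _ _ _ _⟩
  | add _ _ _ _ h h' =>
    obtain ⟨g, h1, rfl⟩ := h
    obtain ⟨g', h1', rfl⟩ := h'
    exact ⟨g + g', add_mem h1 h1', map_add _ _ _⟩
  | mul _ _ _ _ h h' =>
    obtain ⟨g, h1, rfl⟩ := h
    obtain ⟨g', h1', rfl⟩ := h'
    exact ⟨g * g', mul_mem h1 h1', map_mul _ _ _⟩

end

theorem hyp_Lam {Γ : Subgroup (Aut n)} (hE : ∀ (a : Fin n), ∀ q ∈ supported ℂ {a}ᶜ,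
      ∃ φ ∈ Γ, φ (X a) = X a + q ∧ ∀ l, l ≠ a → φ (X l) = X l)
    {i j k : Fin n} (hij : i ≠ j) (hik : i ≠ k) (hjk : j ≠ k) (d : supported ℂ {i, j, k}ᶜ) :
    Hyp d (Lam (supported ℂ {i, j, k}ᶜ) (X i) (X j) (d.1 * X k) Γ) := by
  have le : ∀ a ∈ ({i, j, k} : Set (Fin n)), supported ℂ {i, j, k}ᶜ ≤ supported ℂ {a}ᶜ :=
    fun a ha => supported_mono (Set.compl_subset_compl.mpr (Set.singleton_subset_iff.mpr ha))
  refine ⟨fun g hg => ?_, fun g hg => ?_, fun g hg => ?_⟩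
  · obtain ⟨φ, h1, h2, h3⟩ := hE i _ (io_mem (x := X i) (y := X j) (z := d.1 * X k) hg
      (le i (by simp)) (by rw [io_X1]; exact X_sup hij.symm)
      (by rw [io_X2]; exact mul_mem (le i (by simp) d.2) (X_sup hik.symm)))
    have hS := fun r hr => sup_fix' (le i (by simp) hr : r ∈ _) h3
    exact T_mem_Lam h1 hS h2 (by simp [h3 j hij.symm]) (by simp [h3 k hik.symm, hS d d.2])
  · obtain ⟨φ, h1, h2, h3⟩ := hE j _ (io_mem (x := X i) (y := X j) (z := d.1 * X k) hg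
      (le j (by simp)) (by rw [io_X0]; exact X_sup hij)
      (by rw [io_X2]; exact mul_mem (le j (by simp) d.2) (X_sup hjk.symm)))
    have hS := fun r hr => sup_fix' (le j (by simp) hr : r ∈ _) h3
    exact T_mem_Lam h1 hS (by simp [h3 i hij]) h2 (by simp [h3 k hjk.symm, hS d d.2])
  · obtain ⟨φ, h1, h2, h3⟩ := hE k _ (io_mem (x := X i) (y := X j) (z := d.1 * X k) hg
      (le k (by simp)) (by rw [io_X0]; exact X_sup hik) (by rw [io_X1]; exact X_sup hjk))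
    have hS := fun r hr => sup_fix' (le k (by simp) hr : r ∈ _) h3
    exact T_mem_Lam h1 hS (by simp [h3 i hik]) (by simp [h3 j hjk])
      (by simp [h2, hS d d.2, mul_add])

theorem flow_mem {Γ : Subgroup (Aut n)} (hE : ∀ (a : Fin n), ∀ q ∈ supported ℂ {a}ᶜ,
      ∃ φ ∈ Γ, φ (X a) = X a + q ∧ ∀ l, l ≠ a → φ (X l) = X l)
    {i j k : Fin n} (hij : i ≠ j) (hik : i ≠ k) (hjk : j ≠ k) {α d p₁ p f : PS n}
    (hα : α ∈ supported ℂ {i, j, k}ᶜ) (hd : d ∈ supported ℂ {i, j, k}ᶜ)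
    (hp₁ : p₁ ∈ supported ℂ {j, k}ᶜ) (hp : p ∈ supported ℂ {k}ᶜ)
    (hf : f ∈ Algebra.adjoin ℂ ({α * X j - p₁, d * X k - p} ∪ X '' {i, j, k}ᶜ)) :
    ∃ φ ∈ Γ, φ (X i) = X i + α * d * f ∧ φ (α * X j - p₁) = α * X j - p₁ ∧
      φ (d * X k - p) = d * X k - p ∧ ∀ l, l ≠ i → l ≠ j → l ≠ k → φ (X l) = X l := by
  obtain ⟨p₁, gp₁, rfl⟩ := io_lift (S := supported ℂ {i, j, k}ᶜ) (x := X i) (y := X j)
    (z := d * X k) hp₁ (X 0) (X 0) (by
      rintro _ ⟨l, hl, rfl⟩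
      by_cases e : l = i
      · simp [e]
      · exact Or.inl (X_sup (by simpa [e] using hl)))
  obtain ⟨p, gp, rfl⟩ := io_lift (S := supported ℂ {i, j, k}ᶜ) (x := X i) (y := X j)
    (z := d * X k) hp (X 0) (X 1) (by
      rintro _ ⟨l, hl, rfl⟩
      by_cases e : l = i
      · simp [e]
      by_cases e' : l = j
      · simp [e']
      · exact Or.inl (X_sup (by simpa [e, e'] using hl)))
  obtain ⟨f, gf, rfl⟩ := io_lift (S := supported ℂ {i, j, k}ᶜ) (x := X i) (y := X j)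
    (z := d * X k) hf (C ⟨α, hα⟩ * X 1 - p₁) (X 2 - p) (by
      rintro _ ((rfl | rfl) | ⟨l, hl, rfl⟩)
      · simp
      · simp
      · exact Or.inl (X_sup hl))
  obtain ⟨γ, ⟨φ, h1, h2⟩, e1, e2, e3⟩ := (hyp_Lam hE hij hik hjk ⟨d, hd⟩).flow ⟨α, hα⟩ gp₁ gp gf
  refine ⟨φ, h1, ?_, ?_, ?_, fun l h3 h4 h5 => ?_⟩
  · simpa [e1] using h2 (X 0)
  · have := h2 (C ⟨α, hα⟩ * X 1 - p₁)
    rw [e2] at this
    simpa only [map_sub (io _ _ _ _), map_mul (io _ _ _ _), io_C, io_X1] using this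
  · have := h2 (X 2 - p)
    rw [e3] at this
    simpa only [map_sub (io _ _ _ _), io_X2] using this
  · have := h2 (C ⟨X l, X_sup (by simp [h3, h4, h5])⟩)
    rw [algHom_C γ, algebraMap_eq] at this
    simpa only [io_C] using this

end Pool.Agent.Lib.AN30
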